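import Mathlib

/-!
# Project PN, block P5: counting integral tuples of forms near the multiples of a real tuple
-/

set_option autoImplicit false

namespace Pool.Agent.Helper86.PN

open MvPolynomial Finset

/-- the tuples of integral forms of degree `d` with coefficients in `[-B, B]` -/
def hbox (m d B : ℕ) : Set (Fin (m + 1) → MvPolynomial (Fin (m + 1)) ℤ) :=
  {F | ∀ i, (F i).IsHomogeneous d ∧ ∀ s, |coeff s (F i)| ≤ (B : ℤ)}

/-- the exponents of degree `d` -/
abbrev HExp (m d : ℕ) : Type := {s : Fin (m + 1) →₀ ℕ // s.degree = d}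

noncomputable instance (m d : ℕ) : Fintype (HExp m d) :=
  ((Finsupp.finite_of_degree_le d).subset (s := {s : Fin (m + 1) →₀ ℕ | s.degree ≤ d})
    (t := {s : Fin (m + 1) →₀ ℕ | s.degree = d}) fun _ hs => le_of_eq hs).fintype

/-- the coefficients of a tuple of forms -/
abbrev HIdx (m d : ℕ) : Type := Fin (m + 1) × HExp m d

variable {m d : ℕ}

/-- the tuple of forms with coefficient array `c` -/
noncomputable def hP (c : HIdx m d → ℤ) (i : Fin (m + 1)) : MvPolynomial (Fin (m + 1)) ℤ :=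
  ∑ s : HExp m d, monomial (s : Fin (m + 1) →₀ ℕ) (c (i, s))

theorem coeff_hP (c : HIdx m d → ℤ) (i : Fin (m + 1)) (s : HExp m d) :
    coeff (s : Fin (m + 1) →₀ ℕ) (hP c i) = c (i, s) := by
  classical
  rw [hP, coeff_sum]
  simp only [coeff_monomial]
  rw [Finset.sum_eq_single s]
  · simp
  · intro b _ hb
    rw [if_neg]
    exact fun h => hb (Subtype.ext h)
  · simp

theorem coeff_hP_of_ne (c : HIdx m d → ℤ) (i : Fin (m + 1)) {s : Fin (m + 1) →₀ ℕ}
    (hs : s.degree ≠ d) : coeff s (hP c i) = 0 := by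
  classical
  rw [hP, coeff_sum]
  refine Finset.sum_eq_zero fun b _ => ?_
  rw [coeff_monomial, if_neg]
  rintro rfl
  exact hs b.2

theorem degree_of_hom {R : Type*} [CommRing R] {F : MvPolynomial (Fin (m + 1)) R}
    (hF : F.IsHomogeneous d) {s : Fin (m + 1) →₀ ℕ} (hs : s.degree ≠ d) : coeff s F = 0 := by
  by_contra h
  apply hs
  have h1 := hF h
  rwa [show (Finsupp.weight 1) s = s.degree from
      (DFunLike.congr_fun (Finsupp.degree_eq_weight_one (R := ℕ)) s).symm] at h1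

theorem hP_hom (c : HIdx m d → ℤ) (i : Fin (m + 1)) : (hP c i).IsHomogeneous d :=
  IsHomogeneous.sum _ _ _ fun s _ => isHomogeneous_monomial _ s.2

theorem hP_injective : Function.Injective (fun c : HIdx m d → ℤ => hP c) := by
  intro c c' h
  funext k
  have h1 := congrArg (coeff (k.2 : Fin (m + 1) →₀ ℕ)) (congrFun h k.1)
  dsimp only at h1
  rwa [coeff_hP, coeff_hP] at h1

theorem hP_coeff (F : Fin (m + 1) → MvPolynomial (Fin (m + 1)) ℤ)
    (hF : ∀ i, (F i).IsHomogeneous d) :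
    hP (fun k : HIdx m d => coeff (k.2 : Fin (m + 1) →₀ ℕ) (F k.1)) = F := by
  funext i
  ext s
  by_cases hs : s.degree = d
  · exact coeff_hP (fun k : HIdx m d => coeff (k.2 : Fin (m + 1) →₀ ℕ) (F k.1)) i ⟨s, hs⟩
  · rw [coeff_hP_of_ne _ _ hs, degree_of_hom (hF i) hs]

theorem hbox_eq (m d B : ℕ) : hbox m d B =
    (fun c : HIdx m d → ℤ => hP c) '' {c | ∀ k, c k ∈ Finset.Icc (-(B : ℤ)) B} := by
  ext F
  constructor
  · intro h
    refine ⟨fun k => coeff (k.2 : Fin (m + 1) →₀ ℕ) (F k.1), fun k => ?_, ?_⟩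
    · rw [Finset.mem_Icc, ← abs_le]
      exact (h k.1).2 _
    · exact hP_coeff F fun i => (h i).1
  · rintro ⟨c, hc, rfl⟩ i
    refine ⟨hP_hom c i, fun s => ?_⟩
    by_cases hs : s.degree = d
    · have h1 := coeff_hP c i ⟨s, hs⟩
      dsimp only at h1 ⊢
      rw [h1, abs_le, ← Finset.mem_Icc]
      exact hc _
    · dsimp only
      rw [coeff_hP_of_ne c i hs, abs_zero]
      positivity

/-- the number of integers in an interval -/
theorem count_near {B : ℕ} {a e : ℝ} (ha : |a| + e ≤ B) (he : 1 ≤ e) :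
    e ≤ (((Finset.Icc (-(B : ℤ)) B).filter fun z : ℤ => |(z : ℝ) - a| ≤ e).card : ℝ) := by
  classical
  set x : ℤ := ⌈a - e⌉ with hx
  set y : ℤ := ⌊a + e⌋ with hy
  have hx1 : (x : ℝ) < a - e + 1 := Int.ceil_lt_add_one _
  have hx2 : a - e ≤ x := Int.le_ceil _
  have hy1 : a + e - 1 < y := Int.sub_one_lt_floor _
  have hy2 : (y : ℝ) ≤ a + e := Int.floor_le _
  have ha1 := le_abs_self a
  have ha2 := neg_abs_le a
  have hsub : Finset.Icc x y ⊆ (Finset.Icc (-(B : ℤ)) B).filter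
      fun z : ℤ => |(z : ℝ) - a| ≤ e := by
    intro z hz
    rw [Finset.mem_Icc] at hz
    have h1 : (x : ℝ) ≤ z := by exact_mod_cast hz.1
    have h2 : (z : ℝ) ≤ y := by exact_mod_cast hz.2
    rw [Finset.mem_filter, Finset.mem_Icc]
    refine ⟨⟨?_, ?_⟩, ?_⟩
    · have h3 : (-(B : ℝ)) ≤ z := by linarith
      exact_mod_cast h3
    · have h3 : (z : ℝ) ≤ B := by linarith
      exact_mod_cast h3
    · rw [abs_le]
      constructor <;> linarith
  have h1 := Finset.card_le_card hsub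
  rw [Int.card_Icc] at h1
  have h2 : ((y + 1 - x : ℤ) : ℝ) ≤ (((Finset.Icc (-(B : ℤ)) B).filter
      fun z : ℤ => |(z : ℝ) - a| ≤ e).card : ℝ) := by
    have h3 : (y + 1 - x : ℤ) ≤ ((y + 1 - x).toNat : ℤ) := Int.self_le_toNat _
    calc ((y + 1 - x : ℤ) : ℝ) ≤ (((y + 1 - x).toNat : ℤ) : ℝ) := by exact_mod_cast h3
      _ = ((y + 1 - x).toNat : ℝ) := by norm_cast
      _ ≤ _ := by exact_mod_cast h1
  refine le_trans ?_ h2
  push_cast
  linarith

/-- **The count.** Let `F₀` be a tuple of real forms of degree `d` and `e > 0`. A positive proportion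
of all tuples of integral forms of degree `d` with coefficients in `[-B, B]` is as close to a large
multiple `lam F₀` as `e lam`. -/
theorem hcount (F₀ : Fin (m + 1) → MvPolynomial (Fin (m + 1)) ℝ)
    (hF₀ : ∀ i, (F₀ i).IsHomogeneous d) {e : ℝ} (he : 0 < e) (L₀ : ℝ) :
    ∃ c : ℝ, 0 < c ∧ ∃ B₀ : ℕ, ∀ B : ℕ, B₀ ≤ B → (hbox m d B).Finite ∧
      c * ((hbox m d B).ncard : ℝ) ≤
        (({F ∈ hbox m d B | ∃ lam : ℝ, 0 < lam ∧ L₀ ≤ lam ∧
          ∀ i s, |coeff s (map (Int.castRingHom ℝ) (F i)) - lam * coeff s (F₀ i)| ≤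
            e * lam}).ncard : ℝ) := by
  classical
  -- a bound of the coefficients
  obtain ⟨M, hM0, hM⟩ : ∃ M : ℝ, 0 ≤ M ∧ ∀ k : HIdx m d,
      |coeff (k.2 : Fin (m + 1) →₀ ℕ) (F₀ k.1)| ≤ M :=
    ⟨∑ k : HIdx m d, |coeff (k.2 : Fin (m + 1) →₀ ℕ) (F₀ k.1)|,
      Finset.sum_nonneg fun _ _ => abs_nonneg _,
      fun k => Finset.single_le_sum
        (f := fun k : HIdx m d => |coeff (k.2 : Fin (m + 1) →₀ ℕ) (F₀ k.1)|)
        (fun _ _ => abs_nonneg _) (Finset.mem_univ k)⟩
  have hMe : 0 < M + e := by linarith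
  set n := Fintype.card (HIdx m d) with hn
  refine ⟨(e / (4 * (M + e))) ^ n, by positivity, max ⌈(M + e) * max L₀ (1 / e)⌉₊ 1,
    fun B hB => ?_⟩
  have hB1 : (M + e) * max L₀ (1 / e) ≤ B :=
    (Nat.le_ceil _).trans (by exact_mod_cast (le_max_left _ _).trans hB)
  have hBpos : (1 : ℝ) ≤ B := by exact_mod_cast (le_max_right _ _).trans hB
  set L : ℝ := B / (M + e) with hL
  have hLB : L * (M + e) = B := div_mul_cancel₀ _ hMe.ne'
  have hL1 : max L₀ (1 / e) ≤ L := by
    rw [hL, le_div_iff₀ hMe, mul_comm]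
    exact hB1
  have hLL : L₀ ≤ L := (le_max_left _ _).trans hL1
  have hLe : 1 / e ≤ L := (le_max_right _ _).trans hL1
  have hLpos : 0 < L := (by positivity : (0 : ℝ) < 1 / e).trans_le hLe
  have heL : 1 ≤ e * L := by
    rw [div_le_iff₀ he] at hLe
    linarith
  set I : HIdx m d → Finset ℤ := fun k => (Finset.Icc (-(B : ℤ)) B).filter fun z : ℤ =>
    |(z : ℝ) - L * coeff (k.2 : Fin (m + 1) →₀ ℕ) (F₀ k.1)| ≤ e * L with hI
  have hcardIcc : ((Finset.Icc (-(B : ℤ)) B).card : ℝ) = 2 * B + 1 := by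
    rw [Int.card_Icc]
    have h1 : ((B : ℤ) + 1 - -(B : ℤ)).toNat = 2 * B + 1 := by omega
    rw [h1]
    push_cast
    ring
  have hIcard : ∀ k, e / (4 * (M + e)) * (2 * B + 1) ≤ ((I k).card : ℝ) := by
    intro k
    refine le_trans ?_ (count_near (a := L * coeff (k.2 : Fin (m + 1) →₀ ℕ) (F₀ k.1)) ?_ heL)
    · rw [div_mul_eq_mul_div, div_le_iff₀ (by positivity)]
      calc e * (2 * (B : ℝ) + 1) ≤ e * (4 * B) := by
            gcongr
            linarith
        _ = e * L * (4 * (M + e)) := by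
            rw [← hLB]
            ring
    · rw [abs_mul, abs_of_pos hLpos, ← hLB]
      have := mul_le_mul_of_nonneg_left (hM k) hLpos.le
      linarith
  have hIsub : ∀ k, I k ⊆ Finset.Icc (-(B : ℤ)) B := fun k => Finset.filter_subset _ _
  have hinj := hP_injective (m := m) (d := d)
  have hset : {c : HIdx m d → ℤ | ∀ k, c k ∈ Finset.Icc (-(B : ℤ)) B} =
      (Fintype.piFinset fun _ : HIdx m d => Finset.Icc (-(B : ℤ)) B : Set _) := by
    ext c
    simp only [Set.mem_ofPred_eq, Finset.mem_coe, Fintype.mem_piFinset]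
  have hfin : (hbox m d B).Finite := by
    rw [hbox_eq, hset]
    exact (Finset.finite_toSet _).image _
  have hcard : ((hbox m d B).ncard : ℝ) = (2 * B + 1) ^ n := by
    rw [hbox_eq, Set.ncard_image_of_injective _ hinj, hset, Set.ncard_coe_finset,
      Fintype.card_piFinset, Finset.prod_const, Finset.card_univ]
    push_cast
    rw [hcardIcc]
  refine ⟨hfin, ?_⟩
  set T : Finset (HIdx m d → ℤ) := Fintype.piFinset I with hT
  have hTcard : (e / (4 * (M + e))) ^ n * ((hbox m d B).ncard : ℝ) ≤ (T.card : ℝ) := by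
    rw [hcard, ← mul_pow, hT, Fintype.card_piFinset]
    push_cast
    calc (e / (4 * (M + e)) * (2 * (B : ℝ) + 1)) ^ n =
        ∏ _k : HIdx m d, (e / (4 * (M + e)) * (2 * B + 1)) := by
          rw [Finset.prod_const, Finset.card_univ]
      _ ≤ ∏ k, ((I k).card : ℝ) := Finset.prod_le_prod (fun k _ => by positivity)
          fun k _ => hIcard k
  refine hTcard.trans ?_
  have h1 : (T.card : ℝ) = (((fun c : HIdx m d → ℤ => hP c) ''
      (T : Set (HIdx m d → ℤ))).ncard : ℝ) := by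
    rw [Set.ncard_image_of_injective _ hinj, Set.ncard_coe_finset]
  rw [h1]
  refine Nat.cast_le.2 (Set.ncard_le_ncard ?_ (hfin.subset fun F hF => hF.1))
  rintro F ⟨c, hc, rfl⟩
  have hc1 : ∀ k, c k ∈ I k := by
    rw [Finset.mem_coe, hT, Fintype.mem_piFinset] at hc
    exact hc
  refine ⟨?_, L, hLpos, hLL, ?_⟩
  · rw [hbox_eq]
    exact ⟨c, fun k => hIsub k (hc1 k), rfl⟩
  · intro i s
    by_cases hs : s.degree = d
    · have h2 := hc1 (i, ⟨s, hs⟩)
      simp only [hI] at h2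
      rw [Finset.mem_filter] at h2
      have h3 := coeff_hP c i ⟨s, hs⟩
      dsimp only at h3 ⊢
      rw [coeff_map, h3]
      exact h2.2
    · dsimp only
      rw [coeff_map, coeff_hP_of_ne c i hs, degree_of_hom (hF₀ i) hs, map_zero, mul_zero, sub_zero,
        abs_zero]
      positivity

end Pool.Agent.Helper86.PN
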