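import Pool.Agent.Helper26.PN.Defs
import Pool.Agent.Helper26.PP.Bounds

/-!
# Project PN, block P4 (a): tuples of forms without common zeros are open
-/

set_option autoImplicit false

namespace Pool.Agent.Helper86.PN

open MvPolynomial Finset
open Pool.Agent.Helper26.PN (NoZero eval_mul_hom)
open Pool.Agent.Helper26.PP (expo mem_expo Mn one_le_Mn)

variable {m d : ℕ}

theorem norm_aeval_le {P : MvPolynomial (Fin (m + 1)) ℝ} (hP : P.totalDegree ≤ d) {b : ℝ}
    (hb : ∀ s, |coeff s P| ≤ b) {z : Fin (m + 1) → ℂ} (hz : ‖z‖ ≤ 1) :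
    ‖aeval z P‖ ≤ b * Mn m d := by
  have hb0 : 0 ≤ b := (abs_nonneg _).trans (hb 0)
  rw [aeval_def, eval₂_eq']
  refine (norm_sum_le _ _).trans ?_
  have h1 : ∀ s ∈ P.support, ‖algebraMap ℝ ℂ (coeff s P) * ∏ i, z i ^ s i‖ ≤ b := by
    intro s _
    rw [norm_mul, norm_prod]
    have h2 : ∏ i, ‖z i ^ s i‖ ≤ 1 := by
      refine Finset.prod_le_one (fun i _ => norm_nonneg _) fun i _ => ?_
      rw [norm_pow]
      exact pow_le_one₀ (norm_nonneg _) ((norm_le_pi_norm z i).trans hz)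
    have h3 : ‖algebraMap ℝ ℂ (coeff s P)‖ ≤ b := by
      rw [norm_algebraMap', Real.norm_eq_abs]
      exact hb s
    calc ‖algebraMap ℝ ℂ (coeff s P)‖ * ∏ i, ‖z i ^ s i‖ ≤ b * 1 := by gcongr
      _ = b := mul_one b
  refine (sum_le_sum h1).trans ?_
  rw [sum_const, nsmul_eq_mul, mul_comm, Mn]
  have h4 : P.support ⊆ expo m d := fun s hs => mem_expo.2 ((le_totalDegree hs).trans hP)
  have h5 : (P.support.card : ℝ) ≤ ((expo m d).card : ℝ) := by exact_mod_cast card_le_card h4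
  gcongr

theorem aeval_smul_hom {P : MvPolynomial (Fin (m + 1)) ℝ} (hP : P.IsHomogeneous d) (c : ℂ)
    (z : Fin (m + 1) → ℂ) : aeval (fun i => c * z i) P = c ^ d * aeval z P := by
  have h := eval_mul_hom (hP.map (algebraMap ℝ ℂ)) c z
  rwa [eval_map, eval_map, ← aeval_def, ← aeval_def] at h

/-- **Openness.** -/
theorem noZero_open (F₀ : Fin (m + 1) → MvPolynomial (Fin (m + 1)) ℝ)
    (hF₀ : ∀ i, (F₀ i).IsHomogeneous d) (h : NoZero F₀) : ∃ e : ℝ, 0 < e ∧ ∀ lam : ℝ, 0 < lam →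
      ∀ F : Fin (m + 1) → MvPolynomial (Fin (m + 1)) ℝ, (∀ i, (F i).IsHomogeneous d) →
        (∀ i s, |coeff s (F i) - lam * coeff s (F₀ i)| ≤ e * lam) → NoZero F := by
  have hcont : Continuous fun z : Fin (m + 1) → ℂ => ∑ i, ‖aeval z (F₀ i)‖ := by
    refine continuous_finsetSum _ fun i _ => Continuous.norm ?_
    simp only [aeval_def, ← eval_map]
    exact MvPolynomial.continuous_eval _
  have hne : (Metric.sphere (0 : Fin (m + 1) → ℂ) 1).Nonempty :=
    ⟨fun _ => 1, by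
      rw [mem_sphere_zero_iff_norm]
      refine le_antisymm ((pi_norm_le_iff_of_nonneg zero_le_one).2 fun i => by simp) ?_
      simp⟩
  obtain ⟨z₀, hz₀, hmin⟩ := (isCompact_sphere (0 : Fin (m + 1) → ℂ) 1).exists_isMinOn hne
    hcont.continuousOn
  set δ : ℝ := ∑ i, ‖aeval z₀ (F₀ i)‖ with hδ
  have hz₀' : z₀ ≠ 0 := by
    rintro rfl
    rw [mem_sphere_zero_iff_norm, norm_zero] at hz₀
    exact zero_ne_one hz₀
  have hδ0 : 0 < δ := by
    refine lt_of_le_of_ne (Finset.sum_nonneg fun _ _ => norm_nonneg _) fun h0 => hz₀' ?_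
    refine h z₀ fun i => ?_
    have := (Finset.sum_eq_zero_iff_of_nonneg (fun _ _ => norm_nonneg _)).1 h0.symm i (mem_univ i)
    exact norm_eq_zero.1 this
  have hMn : 0 < Mn m d := zero_lt_one.trans_le one_le_Mn
  refine ⟨δ / (2 * (m + 1) * Mn m d), by positivity, fun lam hlam F hom hF z hz => ?_⟩
  by_contra hz0
  have hnz : 0 < ‖z‖ := norm_pos_iff.2 hz0
  set w : Fin (m + 1) → ℂ := fun i => ((‖z‖⁻¹ : ℝ) : ℂ) * z i with hw
  have hw1 : ‖w‖ = 1 := by
    have : w = (‖z‖⁻¹ : ℝ) • z := by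
      funext i
      rw [hw, Pi.smul_apply, Complex.real_smul]
    rw [this, norm_smul, norm_inv, norm_norm, inv_mul_cancel₀ hnz.ne']
  have hw0 : ∀ i, aeval w (F i) = 0 := fun i => by
    rw [hw, aeval_smul_hom (hom i), hz i, mul_zero]
  have hmin' : δ ≤ ∑ i, ‖aeval w (F₀ i)‖ := hmin (mem_sphere_zero_iff_norm.2 hw1)
  have hle : ∀ i ∈ (univ : Finset (Fin (m + 1))), ‖aeval w (F₀ i)‖ ≤ δ / (2 * (m + 1)) := by
    intro i _
    have h1 : aeval w (F i - C lam * F₀ i) = -((lam : ℂ) * aeval w (F₀ i)) := by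
      rw [map_sub, hw0, map_mul, aeval_C, zero_sub]
      rfl
    have h2 := norm_aeval_le (d := d) (P := F i - C lam * F₀ i)
      (((hom i).sub (by
        have h3 := (isHomogeneous_C (Fin (m + 1)) lam).mul (hF₀ i)
        rwa [zero_add] at h3)).totalDegree_le)
      (b := δ / (2 * (m + 1) * Mn m d) * lam)
      (fun s => by
        rw [coeff_sub, coeff_C_mul]
        exact hF i s) hw1.le
    rw [h1, norm_neg, norm_mul, Complex.norm_real, Real.norm_eq_abs, abs_of_pos hlam] at h2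
    have h4 : δ / (2 * (m + 1) * Mn m d) * lam * Mn m d = lam * (δ / (2 * (m + 1))) := by
      field_simp
    rw [h4] at h2
    exact le_of_mul_le_mul_left h2 hlam
  have h5 := sum_le_sum hle
  rw [sum_const, card_univ, Fintype.card_fin, nsmul_eq_mul] at h5
  push_cast at h5
  have h6 : ((m : ℝ) + 1) * (δ / (2 * (m + 1))) = δ / 2 := by
    field_simp
  rw [h6] at h5
  linarith

end Pool.Agent.Helper86.PN
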