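import Mathlib

/-!
# Project PN, block P2: abstract dynamics (odd degree)

`G x i = 4 ^ i x i + φ x i` with `φ` homogeneous of degree one, `|φ x i| ≤ ε ‖x‖` and `φ` Lipschitz
with constant `ε` in every standard chart. For small `ε` every projective orbit of `G` converges
geometrically to a fixed point near a coordinate point.
-/

set_option autoImplicit false

namespace Pool.Agent.Helper86.PN

variable {m : ℕ}

theorem exists_max (x : Fin (m + 1) → ℝ) : ∃ i, ‖x‖ = |x i| ∧ ∀ j, |x j| ≤ |x i| := by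
  obtain ⟨i, hi⟩ := Finite.exists_max fun i => |x i|
  refine ⟨i, le_antisymm ?_ (norm_le_pi_norm x i), hi⟩
  exact (pi_norm_le_iff_of_nonneg (abs_nonneg _)).2 fun j => hi j

theorem abs_le_norm (x : Fin (m + 1) → ℝ) (i : Fin (m + 1)) : |x i| ≤ ‖x‖ := norm_le_pi_norm x i

/-- `max_(j ≥ k) |x j| ≥ ρ max_(i < k) |x i|` -/
def Dom (k : ℕ) (ρ : ℝ) (x : Fin (m + 1) → ℝ) : Prop :=
  ∃ j : Fin (m + 1), k ≤ j ∧ ∀ i : Fin (m + 1), (i : ℕ) < k → ρ * |x i| ≤ |x j|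

theorem dom_mono {k : ℕ} {ρ ρ' : ℝ} (h : ρ' ≤ ρ) {x : Fin (m + 1) → ℝ} (hx : Dom k ρ x) :
    Dom k ρ' x := by
  obtain ⟨j, hj, h1⟩ := hx
  exact ⟨j, hj, fun i hi => (mul_le_mul_of_nonneg_right h (abs_nonneg _)).trans (h1 i hi)⟩

theorem dom_step {η ε : ℝ} (hη : 0 < η) (hη1 : η ≤ 1) (hε0 : 0 ≤ ε) (hε : ε ≤ η / 4)
    {x x' : Fin (m + 1) → ℝ} {e : Fin (m + 1) → ℝ} (he : ∀ i, |e i| ≤ ε * ‖x‖) {s : ℝ}
    (hx' : ∀ i, x' i = s * (4 ^ (i : ℕ) * x i + e i)) {k : ℕ} {ρ : ℝ} (h1 : η ≤ ρ)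
    (h2 : ρ ≤ 1 / η) (hD : Dom k ρ x) : Dom k (2 * ρ) x' := by
  classical
  obtain ⟨j0, hj0, hj0'⟩ := hD
  obtain ⟨j, hj, hjmax⟩ := Finset.exists_max_image
    (Finset.univ.filter fun j : Fin (m + 1) => k ≤ j) (fun j => |x j|) ⟨j0, by simp [hj0]⟩
  have hkj : k ≤ (j : ℕ) := (Finset.mem_filter.1 hj).2
  have hmax : ∀ i : Fin (m + 1), k ≤ (i : ℕ) → |x i| ≤ |x j| := fun i hi =>
    hjmax i (by simp [hi])
  have hD' : ∀ i : Fin (m + 1), (i : ℕ) < k → ρ * |x i| ≤ |x j| := fun i hi =>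
    (hj0' i hi).trans (hmax j0 hj0)
  refine ⟨j, hkj, fun i hi => ?_⟩
  have hρ : 0 < ρ := hη.trans_le h1
  set U := |x j| with hU
  have hU0 : 0 ≤ U := abs_nonneg _
  -- the norm
  have hN : ρ * ‖x‖ ≤ max (ρ * U) U := by
    obtain ⟨t, ht, -⟩ := exists_max x
    rw [ht]
    rcases lt_or_ge (t : ℕ) k with h | h
    · exact (hD' t h).trans (le_max_right _ _)
    · exact (mul_le_mul_of_nonneg_left (hmax t h) hρ.le).trans (le_max_left _ _)
  have hN0 : 0 ≤ ‖x‖ := norm_nonneg x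
  have key : (2 * ρ + 1) * (ε * ‖x‖) ≤ 2 * U := by
    have h3 : (2 * ρ + 1) * (ε * ‖x‖) * ρ ≤ 2 * U * ρ := by
      have h4 : (2 * ρ + 1) * (ε * ‖x‖) * ρ = (2 * ρ + 1) * ε * (ρ * ‖x‖) := by ring
      rw [h4]
      have h5 : (2 * ρ + 1) * ε * (ρ * ‖x‖) ≤ (2 * ρ + 1) * ε * max (ρ * U) U :=
        mul_le_mul_of_nonneg_left hN (by positivity)
      refine h5.trans ?_
      have hηρ : ρ * η ≤ 1 := by
        rw [le_div_iff₀ hη] at h2
        exact h2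
      have hερ : ρ * ε ≤ 1 / 4 := by
        calc ρ * ε ≤ ρ * (η / 4) := mul_le_mul_of_nonneg_left hε hρ.le
          _ ≤ 1 / 4 := by linarith
      have hε1 : ε ≤ 1 / 4 := by linarith
      have hεη : ε ≤ ρ / 4 := by linarith
      rcases le_total (ρ * U) U with h6 | h6
      · rw [max_eq_right h6]
        have h7 : (2 * ρ + 1) * ε ≤ 2 * ρ := by nlinarith
        calc (2 * ρ + 1) * ε * U ≤ 2 * ρ * U := mul_le_mul_of_nonneg_right h7 hU0
          _ = 2 * U * ρ := by ring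
      · rw [max_eq_left h6]
        have h7 : (2 * ρ + 1) * ε ≤ 2 := by nlinarith
        calc (2 * ρ + 1) * ε * (ρ * U) ≤ 2 * (ρ * U) :=
              mul_le_mul_of_nonneg_right h7 (by positivity)
          _ = 2 * U * ρ := by ring
    exact le_of_mul_le_mul_right h3 hρ
  have hi1 : |4 ^ (i : ℕ) * x i + e i| ≤ 4 ^ (k - 1) * |x i| + ε * ‖x‖ := by
    refine (abs_add_le _ _).trans (add_le_add ?_ (he i))
    rw [abs_mul, abs_of_pos (by positivity : (0 : ℝ) < 4 ^ (i : ℕ))]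
    refine mul_le_mul_of_nonneg_right ?_ (abs_nonneg _)
    exact pow_le_pow_right₀ (by norm_num) (by omega)
  have hj1 : 4 ^ k * U - ε * ‖x‖ ≤ |4 ^ (j : ℕ) * x j + e j| := by
    have h3 : |4 ^ (j : ℕ) * x j| - |e j| ≤ |4 ^ (j : ℕ) * x j + e j| := by
      have := abs_sub_abs_le_abs_sub (4 ^ (j : ℕ) * x j) (-e j)
      rw [abs_neg, sub_neg_eq_add] at this
      exact this
    refine le_trans ?_ h3
    refine sub_le_sub ?_ (he j)
    rw [abs_mul, abs_of_pos (by positivity : (0 : ℝ) < 4 ^ (j : ℕ))]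
    exact mul_le_mul_of_nonneg_right (pow_le_pow_right₀ (by norm_num) hkj) hU0
  rw [hx', hx', abs_mul, abs_mul]
  have hmain : 2 * ρ * |4 ^ (i : ℕ) * x i + e i| ≤ |4 ^ (j : ℕ) * x j + e j| := by
    have h3 : 2 * ρ * |4 ^ (i : ℕ) * x i + e i| ≤
        2 * ρ * (4 ^ (k - 1) * |x i| + ε * ‖x‖) :=
      mul_le_mul_of_nonneg_left hi1 (by positivity)
    refine h3.trans (le_trans ?_ hj1)
    have h4 : (4 : ℝ) ^ k = 4 * 4 ^ (k - 1) := by
      obtain ⟨k', rfl⟩ : ∃ k', k = k' + 1 := ⟨k - 1, by omega⟩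
      rw [Nat.add_sub_cancel, pow_succ]
      ring
    have h5 : 4 ^ (k - 1) * (ρ * |x i|) ≤ 4 ^ (k - 1) * U :=
      mul_le_mul_of_nonneg_left (hD' i hi) (by positivity)
    have h6 : (1 : ℝ) * U ≤ 4 ^ (k - 1) * U :=
      mul_le_mul_of_nonneg_right (one_le_pow₀ (by norm_num)) hU0
    rw [h4]
    nlinarith
  calc 2 * ρ * (|s| * |4 ^ (i : ℕ) * x i + e i|) = |s| * (2 * ρ * |4 ^ (i : ℕ) * x i + e i|) := by
        ring
    _ ≤ |s| * |4 ^ (j : ℕ) * x j + e j| := mul_le_mul_of_nonneg_left hmain (abs_nonneg _)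

/-- the hypotheses on the perturbation -/
structure Pert (m : ℕ) (ε : ℝ) (φ : (Fin (m + 1) → ℝ) → (Fin (m + 1) → ℝ)) : Prop where
  bound : ∀ x : Fin (m + 1) → ℝ, x ≠ 0 → ∀ i, |φ x i| ≤ ε * ‖x‖
  hom : ∀ x : Fin (m + 1) → ℝ, x ≠ 0 → ∀ t : ℝ, t ≠ 0 → ∀ i, φ (t • x) i = t * φ x i
  lip : ∀ k : Fin (m + 1), ∀ x y : Fin (m + 1) → ℝ, x k = 1 → y k = 1 → (∀ j, |x j| ≤ 1) →
    (∀ j, |y j| ≤ 1) → ∀ i, |φ x i - φ y i| ≤ ε * ‖x - y‖

/-- the map -/
def GG (φ : (Fin (m + 1) → ℝ) → (Fin (m + 1) → ℝ)) (x : Fin (m + 1) → ℝ) : Fin (m + 1) → ℝ :=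
  fun i => 4 ^ (i : ℕ) * x i + φ x i

theorem GG_ne {ε : ℝ} {φ : (Fin (m + 1) → ℝ) → (Fin (m + 1) → ℝ)} (hφ : Pert m ε φ) (hε : ε < 1)
    {x : Fin (m + 1) → ℝ} (hx : x ≠ 0) : GG φ x ≠ 0 := by
  intro h
  obtain ⟨i, hi, -⟩ := exists_max x
  have h1 : GG φ x i = 0 := by rw [h]; rfl
  unfold GG at h1
  have h2 := hφ.bound x hx i
  have h3 : 0 < ‖x‖ := norm_pos_iff.2 hx
  have h4 : 4 ^ (i : ℕ) * x i = - φ x i := by linarith
  have h5 : 4 ^ (i : ℕ) * |x i| = |φ x i| := by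
    rw [← abs_neg (φ x i), ← h4, abs_mul, abs_of_pos (by positivity : (0 : ℝ) < 4 ^ (i : ℕ))]
  have h6 : (1 : ℝ) * |x i| ≤ 4 ^ (i : ℕ) * |x i| :=
    mul_le_mul_of_nonneg_right (one_le_pow₀ (by norm_num)) (abs_nonneg _)
  rw [hi] at h2 h3
  nlinarith

/-- the region around a coordinate point -/
def Reg (K : Fin (m + 1)) (η : ℝ) (y : Fin (m + 1) → ℝ) : Prop :=
  y K = 1 ∧ ∀ j, j ≠ K → |y j| ≤ η

theorem Reg.le_one {K : Fin (m + 1)} {η : ℝ} (hη1 : η ≤ 1) {y : Fin (m + 1) → ℝ} (hy : Reg K η y)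
    (j : Fin (m + 1)) : |y j| ≤ 1 := by
  by_cases h : j = K
  · rw [h, hy.1, abs_one]
  · exact (hy.2 j h).trans hη1

theorem Reg.norm {K : Fin (m + 1)} {η : ℝ} (hη1 : η ≤ 1) {y : Fin (m + 1) → ℝ} (hy : Reg K η y) :
    ‖y‖ = 1 := by
  apply le_antisymm
  · exact (pi_norm_le_iff_of_nonneg zero_le_one).2 fun j => hy.le_one hη1 j
  · have := abs_le_norm y K
    rwa [hy.1, abs_one] at this

theorem Reg.ne {K : Fin (m + 1)} {η : ℝ} {y : Fin (m + 1) → ℝ} (hy : Reg K η y) : y ≠ 0 := by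
  intro h
  have := hy.1
  rw [h] at this
  exact zero_ne_one this

theorem compare {η ε : ℝ} (hη1 : η ≤ 1) (hε0 : 0 ≤ ε) (hε : ε ≤ 1 / (100 * 4 ^ m))
    {φ : (Fin (m + 1) → ℝ) → (Fin (m + 1) → ℝ)} (hφ : Pert m ε φ) {K : Fin (m + 1)}
    {y z : Fin (m + 1) → ℝ} (hy : Reg K η y) (hz : Reg K η z) (j : Fin (m + 1)) :
    |GG φ y j / GG φ y K - GG φ z j / GG φ z K - 4 ^ (j : ℕ) / GG φ y K * (y j - z j)| ≤
      1 / 16 * ‖y - z‖ := by
  have h4m : (1 : ℝ) ≤ 4 ^ m := one_le_pow₀ (by norm_num)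
  have hε1 : ε * 4 ^ m ≤ 1 / 100 := by
    calc ε * 4 ^ m ≤ 1 / (100 * 4 ^ m) * 4 ^ m := mul_le_mul_of_nonneg_right hε (by positivity)
      _ = 1 / 100 := by field_simp
  have hε2 : ε ≤ 1 / 100 := by nlinarith
  have hK1 : (1 : ℝ) ≤ 4 ^ (K : ℕ) := one_le_pow₀ (by norm_num)
  have hD : ∀ {u : Fin (m + 1) → ℝ}, Reg K η u → 99 / 100 ≤ GG φ u K := by
    intro u hu
    have h1 := hφ.bound u hu.ne K
    rw [hu.norm hη1, mul_one] at h1
    have h2 := (abs_le.1 h1).1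
    unfold GG
    rw [hu.1]
    linarith
  have hDy := hD hy
  have hDz := hD hz
  set Dy := GG φ y K with hDy'
  set Dz := GG φ z K with hDz'
  have hDy0 : Dy ≠ 0 := by linarith
  have hDz0 : Dz ≠ 0 := by linarith
  have e1 : GG φ y j / Dy - GG φ z j / Dz - 4 ^ (j : ℕ) / Dy * (y j - z j) =
      (φ y j - φ z j) / Dy + GG φ z j * (Dz - Dy) / (Dy * Dz) := by
    have h1 : GG φ y j = 4 ^ (j : ℕ) * y j + φ y j := rfl
    have h2 : GG φ z j = 4 ^ (j : ℕ) * z j + φ z j := rfl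
    rw [h1, h2]
    field_simp
    ring
  rw [e1]
  have hL := hφ.lip K y z hy.1 hz.1 (hy.le_one hη1) (hz.le_one hη1)
  have hw : 0 ≤ ‖y - z‖ := norm_nonneg _
  have b1 : |(φ y j - φ z j) / Dy| ≤ 100 / 99 * (ε * ‖y - z‖) := by
    rw [abs_div, abs_of_pos (by linarith : 0 < Dy), div_le_iff₀ (by linarith)]
    have := hL j
    have h0 : 0 ≤ ε * ‖y - z‖ := by positivity
    nlinarith
  have b2 : |Dz - Dy| ≤ ε * ‖y - z‖ := by
    have h1 : Dz - Dy = -(φ y K - φ z K) := by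
      rw [hDz', hDy']
      unfold GG
      rw [hy.1, hz.1]
      ring
    rw [h1, abs_neg]
    exact hL K
  have b3 : |GG φ z j| ≤ 4 ^ m + 1 := by
    have h1 := hφ.bound z hz.ne j
    rw [hz.norm hη1, mul_one] at h1
    unfold GG
    refine (abs_add_le _ _).trans (add_le_add ?_ (h1.trans (by linarith)))
    rw [abs_mul, abs_of_pos (by positivity : (0 : ℝ) < 4 ^ (j : ℕ))]
    calc (4 : ℝ) ^ (j : ℕ) * |z j| ≤ 4 ^ (j : ℕ) * 1 :=
          mul_le_mul_of_nonneg_left (hz.le_one hη1 j) (by positivity)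
      _ ≤ 4 ^ m := by
          rw [mul_one]
          exact pow_le_pow_right₀ (by norm_num) (by omega)
  have b4 : |GG φ z j * (Dz - Dy) / (Dy * Dz)| ≤ (4 ^ m + 1) * (ε * ‖y - z‖) * (100 / 99) ^ 2 := by
    rw [abs_div, abs_mul, abs_of_pos (by positivity : 0 < Dy * Dz), div_le_iff₀ (by positivity)]
    have h1 : |GG φ z j| * |Dz - Dy| ≤ (4 ^ m + 1) * (ε * ‖y - z‖) :=
      mul_le_mul b3 b2 (abs_nonneg _) (by positivity)
    have h2 : (99 / 100 : ℝ) ^ 2 ≤ Dy * Dz := by nlinarith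
    have h0 : 0 ≤ (4 ^ m + 1) * (ε * ‖y - z‖) := by positivity
    have h3 : (1 : ℝ) ≤ (100 / 99) ^ 2 * (Dy * Dz) := by nlinarith
    calc |GG φ z j| * |Dz - Dy| ≤ (4 ^ m + 1) * (ε * ‖y - z‖) * 1 := by rw [mul_one]; exact h1
      _ ≤ (4 ^ m + 1) * (ε * ‖y - z‖) * ((100 / 99) ^ 2 * (Dy * Dz)) :=
          mul_le_mul_of_nonneg_left h3 h0
      _ = _ := by ring
  refine (abs_add_le _ _).trans ((add_le_add b1 b4).trans ?_)
  have h5 : (4 ^ m + 1) * (ε * ‖y - z‖) = (ε * 4 ^ m + ε) * ‖y - z‖ := by ring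
  have h6 : 100 / 99 * (ε * ‖y - z‖) ≤ 100 / 99 * (1 / 100 * ‖y - z‖) := by
    refine mul_le_mul_of_nonneg_left (mul_le_mul_of_nonneg_right hε2 hw) (by norm_num)
  have h7 : (ε * 4 ^ m + ε) * ‖y - z‖ ≤ (1 / 100 + 1 / 100) * ‖y - z‖ :=
    mul_le_mul_of_nonneg_right (add_le_add hε1 hε2) hw
  rw [h5]
  nlinarith

theorem four_div_le {ε : ℝ} (hε : ε ≤ 1 / 100)
    {φ : (Fin (m + 1) → ℝ) → (Fin (m + 1) → ℝ)} (hφ : Pert m ε φ) {η : ℝ} (hη1 : η ≤ 1)
    {K : Fin (m + 1)} {y : Fin (m + 1) → ℝ} (hy : Reg K η y) :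
    99 / 100 * 4 ^ (K : ℕ) ≤ GG φ y K ∧ GG φ y K ≤ 101 / 100 * 4 ^ (K : ℕ) := by
  have h1 := hφ.bound y hy.ne K
  rw [hy.norm hη1, mul_one] at h1
  obtain ⟨h2, h3⟩ := abs_le.1 h1
  have hK1 : (1 : ℝ) ≤ 4 ^ (K : ℕ) := one_le_pow₀ (by norm_num)
  unfold GG
  rw [hy.1]
  constructor <;> linarith

theorem stab {η ε : ℝ} (hη1 : η ≤ 1) (hε0 : 0 ≤ ε) (hε : ε ≤ 1 / (100 * 4 ^ m))
    {φ : (Fin (m + 1) → ℝ) → (Fin (m + 1) → ℝ)} (hφ : Pert m ε φ) {K : Fin (m + 1)}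
    {y z : Fin (m + 1) → ℝ} (hy : Reg K η y) (hz : Reg K η z) (j : Fin (m + 1)) (hj : j < K) :
    |GG φ y j / GG φ y K - GG φ z j / GG φ z K| ≤ 1 / 2 * ‖y - z‖ := by
  have h4m : (1 : ℝ) ≤ 4 ^ m := one_le_pow₀ (by norm_num)
  have hε2 : ε ≤ 1 / 100 := hε.trans (by
    apply one_div_le_one_div_of_le (by norm_num)
    linarith)
  have h1 := compare hη1 hε0 hε hφ hy hz j
  obtain ⟨h2, -⟩ := four_div_le hε2 hφ hη1 hy
  have hK : (0 : ℝ) < 4 ^ (K : ℕ) := by positivity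
  have h3 : |4 ^ (j : ℕ) / GG φ y K * (y j - z j)| ≤ 26 / 99 * ‖y - z‖ := by
    have hD : 0 < GG φ y K := by linarith
    rw [abs_mul, abs_div, abs_of_pos hD, abs_of_pos (by positivity : (0 : ℝ) < 4 ^ (j : ℕ))]
    have h5 : |y j - z j| ≤ ‖y - z‖ := abs_le_norm (y - z) j
    have h6 : (4 : ℝ) ^ (j : ℕ) / GG φ y K ≤ 26 / 99 := by
      rw [div_le_iff₀ hD]
      have h7 : (4 : ℝ) ^ (j : ℕ) * 4 ≤ 4 ^ (K : ℕ) := by
        rw [← pow_succ]
        exact pow_le_pow_right₀ (by norm_num) (by have := Fin.lt_def.1 hj; omega)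
      linarith
    exact mul_le_mul h6 h5 (abs_nonneg _) (by norm_num)
  have h8 : |GG φ y j / GG φ y K - GG φ z j / GG φ z K| ≤
      |GG φ y j / GG φ y K - GG φ z j / GG φ z K - 4 ^ (j : ℕ) / GG φ y K * (y j - z j)| +
        |4 ^ (j : ℕ) / GG φ y K * (y j - z j)| := by
    have := abs_add_le (GG φ y j / GG φ y K - GG φ z j / GG φ z K -
      4 ^ (j : ℕ) / GG φ y K * (y j - z j)) (4 ^ (j : ℕ) / GG φ y K * (y j - z j))
    rwa [sub_add_cancel] at this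
  have hw : 0 ≤ ‖y - z‖ := norm_nonneg _
  linarith

theorem unst {η ε : ℝ} (hη1 : η ≤ 1) (hε0 : 0 ≤ ε) (hε : ε ≤ 1 / (100 * 4 ^ m))
    {φ : (Fin (m + 1) → ℝ) → (Fin (m + 1) → ℝ)} (hφ : Pert m ε φ) {K : Fin (m + 1)}
    {y z : Fin (m + 1) → ℝ} (hy : Reg K η y) (hz : Reg K η z) (j : Fin (m + 1)) (hj : K < j)
    (hw : ‖y - z‖ = |y j - z j|) :
    3 * ‖y - z‖ ≤ |GG φ y j / GG φ y K - GG φ z j / GG φ z K| := by
  have h4m : (1 : ℝ) ≤ 4 ^ m := one_le_pow₀ (by norm_num)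
  have hε2 : ε ≤ 1 / 100 := hε.trans (by
    apply one_div_le_one_div_of_le (by norm_num)
    linarith)
  have h1 := compare hη1 hε0 hε hφ hy hz j
  obtain ⟨h2, h2'⟩ := four_div_le hε2 hφ hη1 hy
  have hK : (0 : ℝ) < 4 ^ (K : ℕ) := by positivity
  have hw0 : 0 ≤ ‖y - z‖ := norm_nonneg _
  have h3 : 39 / 10 * ‖y - z‖ ≤ |4 ^ (j : ℕ) / GG φ y K * (y j - z j)| := by
    have hD : 0 < GG φ y K := by linarith
    rw [abs_mul, abs_div, abs_of_pos hD, abs_of_pos (by positivity : (0 : ℝ) < 4 ^ (j : ℕ)), ← hw]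
    refine mul_le_mul_of_nonneg_right ?_ hw0
    rw [le_div_iff₀ hD]
    have h7 : (4 : ℝ) ^ (K : ℕ) * 4 ≤ 4 ^ (j : ℕ) := by
      rw [← pow_succ]
      exact pow_le_pow_right₀ (by norm_num) (by have := Fin.lt_def.1 hj; omega)
    linarith
  have h8 : |4 ^ (j : ℕ) / GG φ y K * (y j - z j)| ≤
      |GG φ y j / GG φ y K - GG φ z j / GG φ z K| +
      |GG φ y j / GG φ y K - GG φ z j / GG φ z K - 4 ^ (j : ℕ) / GG φ y K * (y j - z j)| := by
    have := abs_sub_abs_le_abs_sub (4 ^ (j : ℕ) / GG φ y K * (y j - z j))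
      (GG φ y j / GG φ y K - GG φ z j / GG φ z K)
    rw [abs_sub_comm (4 ^ (j : ℕ) / GG φ y K * (y j - z j))] at this
    linarith
  linarith

/-- the dichotomy for the ratio of the blocks -/
theorem dom_forever {η ε : ℝ} (hη : 0 < η) (hη1 : η ≤ 1) (hε0 : 0 ≤ ε) (hε : ε ≤ η / 4)
    {φ : (Fin (m + 1) → ℝ) → (Fin (m + 1) → ℝ)} (hφ : Pert m ε φ) {x : ℕ → Fin (m + 1) → ℝ}
    (hx0 : ∀ n, x n ≠ 0)
    (hx : ∀ n, ∃ s : ℝ, s ≠ 0 ∧ ∀ i, x (n + 1) i = s * GG φ (x n) i) {k n : ℕ}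
    (h : Dom k η (x n)) : ∃ n0, ∀ n', n0 ≤ n' → Dom k (1 / η) (x n') := by
  have h1η : η ≤ 1 / η := hη1.trans (by rw [le_div_iff₀ hη]; linarith)
  have hstep : ∀ t : ℕ, Dom k (min (2 ^ t * η) (1 / η)) (x (n + t)) := by
    intro t
    induction t with
    | zero =>
      refine dom_mono ?_ h
      rw [pow_zero, one_mul]
      exact min_le_left _ _
    | succ t ih =>
      obtain ⟨s, -, hs⟩ := hx (n + t)
      have h1 : η ≤ min (2 ^ t * η) (1 / η) := by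
        refine le_min ?_ h1η
        have : (1 : ℝ) * η ≤ 2 ^ t * η :=
          mul_le_mul_of_nonneg_right (one_le_pow₀ (by norm_num)) hη.le
        linarith
      have h2 := dom_step hη hη1 hε0 hε (fun i => hφ.bound _ (hx0 (n + t)) i) hs h1
        (min_le_right _ _) ih
      refine dom_mono ?_ h2
      rcases le_total (2 ^ t * η) (1 / η) with h3 | h3
      · rw [min_eq_left h3]
        refine (min_le_left _ _).trans ?_
        rw [pow_succ]
        linarith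
      · rw [min_eq_right h3]
        refine (min_le_right _ _).trans ?_
        have : 0 < 1 / η := by positivity
        linarith
  obtain ⟨t0, ht0⟩ := pow_unbounded_of_one_lt (1 / η / η) (by norm_num : (1 : ℝ) < 2)
  refine ⟨n + t0, fun n' hn' => ?_⟩
  obtain ⟨t, rfl⟩ := Nat.exists_eq_add_of_le hn'
  have h1 := hstep (t0 + t)
  rw [← add_assoc] at h1
  refine dom_mono ?_ h1
  refine le_min ?_ le_rfl
  have h2 : (1 / η / η) < 2 ^ (t0 + t) :=
    ht0.trans_le (pow_le_pow_right₀ (by norm_num) (by omega))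
  rw [div_lt_iff₀ hη] at h2
  exact h2.le

/-- all late points of the orbit are near one coordinate point -/
theorem late {η ε : ℝ} (hη : 0 < η) (hη1 : η < 1) (hε0 : 0 ≤ ε) (hε : ε ≤ η / 4)
    {φ : (Fin (m + 1) → ℝ) → (Fin (m + 1) → ℝ)} (hφ : Pert m ε φ) {x : ℕ → Fin (m + 1) → ℝ}
    (hx0 : ∀ n, x n ≠ 0)
    (hx : ∀ n, ∃ s : ℝ, s ≠ 0 ∧ ∀ i, x (n + 1) i = s * GG φ (x n) i) :
    ∃ (K : Fin (m + 1)) (n0 : ℕ), ∀ n, n0 ≤ n → ∀ j, j ≠ K → |x n j| ≤ η * |x n K| := by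
  classical
  have hex : ∃ k, k ≤ m ∧ (∃ n, Dom k η (x n)) ∧ ∀ k', k < k' → k' ≤ m → ¬ ∃ n, Dom k' η (x n) := by
    have h0 : ∃ n, Dom 0 η (x n) := ⟨0, 0, Nat.zero_le _, fun i hi => absurd hi (Nat.not_lt_zero _)⟩
    refine ⟨Nat.findGreatest (fun k => ∃ n, Dom k η (x n)) m, Nat.findGreatest_le m,
      Nat.findGreatest_spec (P := fun k => ∃ n, Dom k η (x n)) (Nat.zero_le m) h0, ?_⟩
    intro k' h1 h2
    exact Nat.findGreatest_is_greatest h1 h2
  obtain ⟨k, hk, ⟨n1, hn1⟩, hmax⟩ := hex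
  obtain ⟨n0, hn0⟩ := dom_forever hη hη1.le hε0 hε hφ hx0 hx hn1
  refine ⟨⟨k, by omega⟩, n0, fun n hn => ?_⟩
  set K : Fin (m + 1) := ⟨k, by omega⟩ with hK
  -- above `K`
  have hup : ∀ j : Fin (m + 1), K < j → ∃ i : Fin (m + 1), i ≤ K ∧ |x n j| < η * |x n i| := by
    intro j hj
    have hj' : k < j := Fin.lt_def.1 hj
    have h1 := hmax (k + 1) (by omega) (by omega)
    by_contra hcon
    push Not at hcon
    refine h1 ⟨n, j, by omega, fun i hi => ?_⟩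
    exact hcon i (Fin.le_def.2 (by show (i : ℕ) ≤ k; omega))
  obtain ⟨j0, hj0, hj0'⟩ := hn0 n hn
  have hlow : ∀ i : Fin (m + 1), i < K → |x n i| ≤ η * |x n j0| := by
    intro i hi
    have h1 := hj0' i (Fin.lt_def.1 hi)
    rw [one_div, inv_mul_le_iff₀ hη] at h1
    exact h1
  have hj0K : K ≤ j0 := Fin.le_def.2 hj0
  -- the maximum over the indices up to `K`
  obtain ⟨i, hi, himax⟩ := Finset.exists_max_image
    (Finset.univ.filter fun i : Fin (m + 1) => i ≤ K) (fun i => |x n i|) ⟨K, by simp⟩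
  have hiK : i ≤ K := (Finset.mem_filter.1 hi).2
  have himax' : ∀ j : Fin (m + 1), j ≤ K → |x n j| ≤ |x n i| := fun j hj =>
    himax j (by simp [hj])
  have hup' : ∀ j : Fin (m + 1), K < j → |x n j| ≤ η * |x n i| := by
    intro j hj
    obtain ⟨i', hi', h⟩ := hup j hj
    exact h.le.trans (mul_le_mul_of_nonneg_left (himax' i' hi') hη.le)
  have hKi : |x n i| ≤ |x n K| := by
    rcases hiK.lt_or_eq with h | h
    · have h1 := hlow i h
      rcases hj0K.lt_or_eq with h2 | h2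
      · have h3 := hup' j0 h2
        have h4 : 0 ≤ |x n i| := abs_nonneg _
        have h5 : |x n i| ≤ η * (η * |x n i|) :=
          h1.trans (mul_le_mul_of_nonneg_left h3 hη.le)
        have h6 : |x n i| = 0 := by
          by_contra h7
          have h8 : 0 < |x n i| := lt_of_le_of_ne h4 (Ne.symm h7)
          have h9 : η * (η * |x n i|) < 1 * |x n i| := by
            have : η * η < 1 := by nlinarith
            rw [← mul_assoc]
            exact mul_lt_mul_of_pos_right this h8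
          linarith
        rw [h6]
        exact abs_nonneg _
      · rw [← h2] at h1
        refine h1.trans ?_
        have : 0 ≤ |x n K| := abs_nonneg _
        nlinarith
    · rw [h]
  intro j hj
  rcases lt_or_gt_of_ne hj with h | h
  · refine (hlow j h).trans (mul_le_mul_of_nonneg_left ?_ hη.le)
    rcases hj0K.lt_or_eq with h2 | h2
    · refine (hup' j0 h2).trans ?_
      have h4 : 0 ≤ |x n i| := abs_nonneg _
      nlinarith
    · rw [h2]
  · exact (hup' j h).trans (mul_le_mul_of_nonneg_left hKi hη.le)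

/-- **Abstract dynamics.** Every projective orbit converges geometrically to a fixed point near a
coordinate point. -/
theorem dyn (m : ℕ) {η : ℝ} (hη : 0 < η) (hη1 : η < 1) :
    ∃ ε₀ : ℝ, 0 < ε₀ ∧ ∀ ε : ℝ, 0 ≤ ε → ε ≤ ε₀ →
      ∀ φ : (Fin (m + 1) → ℝ) → (Fin (m + 1) → ℝ), Pert m ε φ →
      ∀ x : ℕ → Fin (m + 1) → ℝ, x 0 ≠ 0 →
      (∀ n, ∃ s : ℝ, s ≠ 0 ∧ ∀ i : Fin (m + 1),
        x (n + 1) i = s * (4 ^ (i : ℕ) * x n i + φ (x n) i)) →
      ∃ (k : Fin (m + 1)) (v : Fin (m + 1) → ℝ) (C : ℝ) (n₀ : ℕ), v k = 1 ∧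
        (∀ j, j ≠ k → |v j| ≤ η) ∧
        (∀ n, n₀ ≤ n → x n k ≠ 0 ∧ ∀ j, |x n j / x n k - v j| ≤ C * (1 / 2) ^ n) ∧
        99 / 100 ≤ 4 ^ (k : ℕ) * v k + φ v k ∧
        ∀ i : Fin (m + 1), 4 ^ (i : ℕ) * v i + φ v i = (4 ^ (k : ℕ) * v k + φ v k) * v i := by
  classical
  refine ⟨min (η / 4) (1 / (100 * 4 ^ m)), by positivity, ?_⟩
  intro ε hε0 hε φ hφ x hx00 hx
  have hε1 : ε ≤ η / 4 := hε.trans (min_le_left _ _)
  have hε2 : ε ≤ 1 / (100 * 4 ^ m) := hε.trans (min_le_right _ _)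
  have h4m : (1 : ℝ) ≤ 4 ^ m := one_le_pow₀ (by norm_num)
  have hε3 : ε ≤ 1 / 100 := hε2.trans (by
    apply one_div_le_one_div_of_le (by norm_num)
    linarith)
  have hx' : ∀ n, ∃ s : ℝ, s ≠ 0 ∧ ∀ i, x (n + 1) i = s * GG φ (x n) i := hx
  have hx0 : ∀ n, x n ≠ 0 := by
    intro n
    induction n with
    | zero => exact hx00
    | succ n ih =>
      obtain ⟨s, hs, h⟩ := hx' n
      intro h0
      apply GG_ne hφ (by linarith) ih
      funext i
      have h1 := h i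
      rw [h0] at h1
      have h2 : s * GG φ (x n) i = 0 := h1.symm
      exact (mul_eq_zero.1 h2).resolve_left hs
  obtain ⟨K, n0, hK⟩ := late hη hη1 hε0 hε1 hφ hx0 hx'
  have hxK : ∀ n, n0 ≤ n → x n K ≠ 0 := by
    intro n hn h0
    apply hx0 n
    funext j
    by_cases hj : j = K
    · rw [hj, h0]; rfl
    · have h1 := hK n hn j hj
      rw [h0, abs_zero, mul_zero] at h1
      exact abs_nonpos_iff.1 h1
  set Y : ℕ → Fin (m + 1) → ℝ := fun t j => x (n0 + t) j / x (n0 + t) K with hY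
  have hYreg : ∀ t, Reg K η (Y t) := by
    intro t
    have h1 := hxK (n0 + t) (by omega)
    refine ⟨div_self h1, fun j hj => ?_⟩
    rw [hY]
    show |x (n0 + t) j / x (n0 + t) K| ≤ η
    rw [abs_div, div_le_iff₀ (abs_pos.2 h1)]
    exact hK _ (by omega) j hj
  have hYstep : ∀ t j, Y (t + 1) j = GG φ (Y t) j / GG φ (Y t) K := by
    intro t j
    obtain ⟨s, hs, h⟩ := hx' (n0 + t)
    have h1 := hxK (n0 + t) (by omega)
    have h3 : x (n0 + t) = (x (n0 + t) K) • Y t := by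
      funext i
      show x (n0 + t) i = x (n0 + t) K * (x (n0 + t) i / x (n0 + t) K)
      field_simp
    have h4 : ∀ i, GG φ (x (n0 + t)) i = x (n0 + t) K * GG φ (Y t) i := by
      intro i
      have h5 := hφ.hom (Y t) (hYreg t).ne _ h1 i
      unfold GG
      rw [← h3] at h5
      rw [h5]
      show 4 ^ (i : ℕ) * x (n0 + t) i + _ = x (n0 + t) K *
        (4 ^ (i : ℕ) * (x (n0 + t) i / x (n0 + t) K) + _)
      field_simp
    show x (n0 + (t + 1)) j / x (n0 + (t + 1)) K = _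
    have e : n0 + (t + 1) = n0 + t + 1 := by omega
    rw [e, h j, h K, h4 j, h4 K]
    have h6 : 99 / 100 * 4 ^ (K : ℕ) ≤ GG φ (Y t) K :=
      (four_div_le hε3 hφ hη1.le (hYreg t)).1
    have h7 : GG φ (Y t) K ≠ 0 := by
      have : (0 : ℝ) < 4 ^ (K : ℕ) := by positivity
      linarith
    field_simp
  -- the differences
  set W : ℕ → Fin (m + 1) → ℝ := fun t => Y (t + 1) - Y t with hW
  have hWapp : ∀ t j, W (t + 1) j = GG φ (Y (t + 1)) j / GG φ (Y (t + 1)) K -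
      GG φ (Y t) j / GG φ (Y t) K := by
    intro t j
    show Y (t + 1 + 1) j - Y (t + 1) j = _
    rw [hYstep (t + 1) j, hYstep t j]
  have hWK : ∀ t, W t K = 0 := by
    intro t
    show Y (t + 1) K - Y t K = 0
    rw [(hYreg _).1, (hYreg _).1, sub_self]
  have hWb : ∀ t, ‖W t‖ ≤ 2 := by
    intro t
    have h1 : ‖W t‖ ≤ ‖Y (t + 1)‖ + ‖Y t‖ := norm_sub_le _ _
    rw [(hYreg _).norm hη1.le, (hYreg _).norm hη1.le] at h1
    linarith
  have hnoA : ∀ t, ¬ ∃ j, K < j ∧ ‖W t‖ = |W t j| ∧ W t ≠ 0 := by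
    intro t hA
    have hgrow : ∀ r : ℕ, 3 ^ r * ‖W t‖ ≤ ‖W (t + r)‖ ∧
        ∃ j, K < j ∧ ‖W (t + r)‖ = |W (t + r) j| ∧ W (t + r) ≠ 0 := by
      intro r
      induction r with
      | zero => exact ⟨by simp, hA⟩
      | succ r ih =>
        obtain ⟨ih1, j, hj, hj1, hj2⟩ := ih
        have h1 : 3 * ‖W (t + r)‖ ≤ |W (t + r + 1) j| := by
          rw [hWapp]
          exact unst hη1.le hε0 hε2 hφ (hYreg _) (hYreg _) j hj hj1
        have hpos : 0 < ‖W (t + r)‖ := norm_pos_iff.2 hj2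
        have h2 : 3 * ‖W (t + r)‖ ≤ ‖W (t + r + 1)‖ := h1.trans (abs_le_norm _ j)
        refine ⟨?_, ?_⟩
        · rw [← add_assoc, pow_succ]
          calc 3 ^ r * 3 * ‖W t‖ = 3 * (3 ^ r * ‖W t‖) := by ring
            _ ≤ 3 * ‖W (t + r)‖ := by linarith
            _ ≤ _ := h2
        · obtain ⟨i, hi, -⟩ := exists_max (W (t + r + 1))
          rw [← add_assoc]
          have hpos' : 0 < ‖W (t + r + 1)‖ := by linarith
          refine ⟨i, ?_, hi, norm_pos_iff.1 hpos'⟩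
          rcases lt_trichotomy i K with h | h | h
          · exfalso
            have h3 : |W (t + r + 1) i| ≤ 1 / 2 * ‖W (t + r)‖ := by
              rw [hWapp]
              exact stab hη1.le hε0 hε2 hφ (hYreg _) (hYreg _) i h
            rw [← hi] at h3
            linarith
          · exfalso
            rw [h, hWK, abs_zero] at hi
            linarith
          · exact h
    obtain ⟨-, -, -, hne⟩ := hA
    have hpos : 0 < ‖W t‖ := norm_pos_iff.2 hne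
    obtain ⟨r, hr⟩ := pow_unbounded_of_one_lt (2 / ‖W t‖) (by norm_num : (1 : ℝ) < 3)
    rw [div_lt_iff₀ hpos] at hr
    have h1 := (hgrow r).1
    have h2 := hWb (t + r)
    linarith
  have hcontr : ∀ t, ‖W (t + 1)‖ ≤ 1 / 2 * ‖W t‖ := by
    intro t
    by_cases h0 : W (t + 1) = 0
    · rw [h0, norm_zero]
      have := norm_nonneg (W t)
      linarith
    obtain ⟨i, hi, -⟩ := exists_max (W (t + 1))
    have hpos : 0 < ‖W (t + 1)‖ := norm_pos_iff.2 h0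
    rcases lt_trichotomy i K with h | h | h
    · rw [hi, hWapp]
      exact stab hη1.le hε0 hε2 hφ (hYreg _) (hYreg _) i h
    · exfalso
      rw [h, hWK, abs_zero] at hi
      linarith
    · exact absurd ⟨i, h, hi, h0⟩ (hnoA (t + 1))
  have hgeo : ∀ t, ‖W t‖ ≤ ‖W 0‖ * (1 / 2) ^ t := by
    intro t
    induction t with
    | zero => simp
    | succ t ih =>
      have := hcontr t
      rw [pow_succ]
      nlinarith
  have hdist : ∀ t, dist (Y t) (Y (t + 1)) ≤ ‖W 0‖ * (1 / 2) ^ t := by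
    intro t
    rw [dist_eq_norm, norm_sub_rev]
    exact hgeo t
  obtain ⟨v, hv⟩ := cauchySeq_tendsto_of_complete
    (cauchySeq_of_le_geometric (1 / 2) ‖W 0‖ (by norm_num) hdist)
  have hlim : ∀ t, dist (Y t) v ≤ ‖W 0‖ * (1 / 2) ^ t / (1 - 1 / 2) := fun t =>
    dist_le_of_le_geometric_of_tendsto (1 / 2) ‖W 0‖ (by norm_num) hdist hv t
  have hvj : ∀ j, Filter.Tendsto (fun t => Y t j) Filter.atTop (nhds (v j)) := fun j =>
    (tendsto_pi_nhds.1 hv) j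
  have hvK : v K = 1 := by
    refine tendsto_nhds_unique (hvj K) ?_
    have : (fun t => Y t K) = fun _ => (1 : ℝ) := funext fun t => (hYreg t).1
    rw [this]
    exact tendsto_const_nhds
  have hvreg : Reg K η v := by
    refine ⟨hvK, fun j hj => ?_⟩
    exact le_of_tendsto ((continuous_abs.tendsto _).comp (hvj j))
      (Filter.Eventually.of_forall fun t => (hYreg t).2 j hj)
  have hφlim : ∀ i, Filter.Tendsto (fun t => φ (Y t) i) Filter.atTop (nhds (φ v i)) := by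
    intro i
    rw [tendsto_iff_dist_tendsto_zero]
    refine squeeze_zero (fun _ => dist_nonneg) (g := fun t => ε * dist (Y t) v) (fun t => ?_) ?_
    · rw [Real.dist_eq, dist_eq_norm]
      exact hφ.lip K (Y t) v (hYreg t).1 hvK ((hYreg t).le_one hη1.le) (hvreg.le_one hη1.le) i
    · have h1 := (tendsto_iff_dist_tendsto_zero.1 hv).const_mul ε
      rwa [mul_zero] at h1
  have hGlim : ∀ i, Filter.Tendsto (fun t => GG φ (Y t) i) Filter.atTop (nhds (GG φ v i)) :=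
    fun i => ((hvj i).const_mul _).add (hφlim i)
  have hDv := (four_div_le hε3 hφ hη1.le hvreg).1
  have hK1 : (1 : ℝ) ≤ 4 ^ (K : ℕ) := one_le_pow₀ (by norm_num)
  have hD1 : 99 / 100 ≤ GG φ v K := by linarith
  have hfix : ∀ i, GG φ v i = GG φ v K * v i := by
    intro i
    have h1 : Filter.Tendsto (fun t => Y (t + 1) i) Filter.atTop (nhds (v i)) :=
      (hvj i).comp (Filter.tendsto_add_atTop_nat 1)
    have h2 : Filter.Tendsto (fun t => GG φ (Y t) K * Y (t + 1) i) Filter.atTop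
        (nhds (GG φ v K * v i)) := (hGlim K).mul h1
    refine tendsto_nhds_unique (hGlim i) (h2.congr fun t => ?_)
    rw [hYstep]
    have h6 : 99 / 100 * 4 ^ (K : ℕ) ≤ GG φ (Y t) K :=
      (four_div_le hε3 hφ hη1.le (hYreg t)).1
    have h7 : GG φ (Y t) K ≠ 0 := by linarith
    field_simp
  refine ⟨K, v, 2 * ‖W 0‖ * 2 ^ n0, n0, hvK, hvreg.2, fun n hn => ⟨hxK n hn, fun j => ?_⟩, hD1,
    hfix⟩
  obtain ⟨t, rfl⟩ := Nat.exists_eq_add_of_le hn
  have h1 : |Y t j - v j| ≤ dist (Y t) v := by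
    rw [dist_eq_norm]
    exact abs_le_norm (Y t - v) j
  refine (h1.trans (hlim t)).trans (le_of_eq ?_)
  rw [pow_add]
  have h2 : (2 : ℝ) ^ n0 * (1 / 2) ^ n0 = 1 := by
    rw [← mul_pow]
    norm_num
  calc ‖W 0‖ * (1 / 2) ^ t / (1 - 1 / 2) = 2 * ‖W 0‖ * (1 / 2) ^ t := by ring
    _ = 2 * ‖W 0‖ * (2 ^ n0 * (1 / 2) ^ n0) * (1 / 2) ^ t := by rw [h2, mul_one]
    _ = _ := by ring

end Pool.Agent.Helper86.PN
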